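import Pool.Agent.ODR.Lasm

/-!
# MP_d12cfa_co: limit law of the first row and of the sign of the diagonal entry

For a uniformly random off-diagonally symmetric alternating sign matrix of order `2 n + 1` let `j`
be the column of the `1` of the first row (`0 ≤ j ≤ 2 n`) and `e` the nonzero diagonal entry. Then
`(j - n)/√(3n/4)` and `e` are asymptotically a standard Gaussian variable and an independent fair
sign.

Proof: by the refined enumeration (`RefinedOSASM`) and the recursion behind it the generating
functions are, at distance `1/√n` from `1`, those of a beta binomial law (sums) and negligible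
(differences; the asymptotic bias of the sign enters); the beta binomial law is Gaussian in the
limit by its Stein identity (a differential inequality for the characteristic function).
-/

set_option autoImplicit false

namespace Pool.Agent.Results.MP_d12cfa_co.FirstRowLaw

open Filter Topology

theorem result (e : ℤ) (he : e = 1 ∨ e = -1) (x : ℝ) :
    Tendsto (fun n : ℕ => (Nat.card {A : Matrix (Fin (2 * n + 1)) (Fin (2 * n + 1)) ℤ //
      ODD.IsOSASM n A ∧ (∃ d, A d d = e) ∧ ∃ j : Fin (2 * n + 1), A 0 j = 1 ∧
        (((j : ℕ) : ℝ) - n) / √(3 * n / 4) ≤ x} : ℝ) / ODD.Nall n) atTop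
      (𝓝 ((ProbabilityTheory.gaussianReal 0 1).real (Set.Iic x) / 2)) :=
  ODR.law e he x

end Pool.Agent.Results.MP_d12cfa_co.FirstRowLaw
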