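import Pool.Agent.ODR.Asm

/-!
# MP_d12cfa_co: odd order OSASMs by the first row and by the sign of the diagonal entry

`Nref n e i`: number of off-diagonally symmetric alternating sign matrices of order `2 n + 1`
whose nonzero diagonal entry is `e` and whose first row has its `1` in the column `i`
(`0 ≤ i ≤ 2 n`); `dd n i = Nref n 1 i - Nref n (-1) i`, `ss n i = Nref n 1 i + Nref n (-1) i`;
`Dp`, `Sp` are generating polynomials (definitions in `Pool/Agent/ODR/Defs.lean`). Everything is
expressed by the totals `ODD.Nall n`, `del n` (difference of the numbers for the two signs) and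
`Neven n` (even order): the differences are symmetric apart from the two ends, and the two
generating polynomials are combinations of the beta binomial polynomials `gq`.

Proof: functional equations of period three in one spectral parameter for both integrable
quotients of the diagonal weights (library of `SignedOSASM`); in the parameter `t` of the generating
polynomials they become relations for the cyclic group of order three `t ↦ 1 - 1/t`; uniqueness of
a Pade form gives the kernel, the palindromic symmetry and a recursion in the order.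
-/

set_option autoImplicit false

namespace Pool.Agent.Results.MP_d12cfa_co.RefinedOSASM

open Polynomial ODR

theorem result (n : ℕ) (hn : 1 ≤ n) :
    (1 - X) ^ (2 * n - 2) * ((1 + X) * Dp n) =
      C (Neven n : ℚ) * (C (1 / 2) * X ^ (2 * n - 1) + ∑ k ∈ Finset.Icc 1 (n - 1),
        C (nu k) * (X ^ (2 * n - 2 * k) * (1 - X) ^ (2 * k - 2) * gq (2 * k))) +
      C (del (n - 1) / ((4 * n).choose (2 * n) : ℕ)) * ((1 - X) ^ (2 * n - 2) * gq (2 * n)) ∧
    (1 + X) ^ 2 * (2 - X) * Sp n = 3 * X * (1 - X) * ((1 + X) * Dp n) +
      C (al n) * ((1 + X) * (2 - X) * (1 - 2 * X) * gq (2 * n)) +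
      C (be n) * ((1 - X) ^ 2 * gq (2 * n + 1)) ∧
    (∀ i, 2 ≤ i → i ≤ 2 * n - 1 → dd n i = dd n (2 * n + 1 - i)) ∧
    dd n 0 + dd n 1 = del (n - 1) ∧
    dd n (2 * n) = del (n - 1) ∧
    2 * ∑ i ∈ Finset.range (2 * n + 1), ((i : ℚ) + 1) * ss n i =
      (2 * n + 3) * ODD.Nall n - 3 * del n + 2 * Neven n :=
  ⟨part2 n hn, part3 n hn, part1a n hn, part1b n hn, part1c n hn, part4 n hn⟩

end Pool.Agent.Results.MP_d12cfa_co.RefinedOSASM
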