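import Pool.Agent.ODD.Count
import Pool.Agent.ODD.WE

/-!
# MP_d12cfa_co: asymptotic bias of the sign of the nonzero diagonal entry

The relative excess of the sign `+1` among the OSASMs of order `2 n + 1` is asymptotic to
`√3 / (2 n)`. Proof: exact formula of `SignedOSASM`; the alternating very-well-poised series
`∑ v k = 1/8` (a WZ certificate shifts a parameter to infinity), Euler's product for the sine.
-/

set_option autoImplicit false

namespace Pool.Agent.Results.MP_d12cfa_co.SignBias

open Filter Topology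

theorem result :
    Tendsto (fun n : ℕ => (n : ℝ) * (((ODD.Npos n : ℝ) - ODD.Nneg n) / ODD.Nall n)) atTop
      (𝓝 (√3 / 2)) := by
  refine ODD.rho_lim.congr fun n => ?_
  obtain ⟨h1, h2, h3⟩ := ODD.counts n
  have h5 : 0 < ODD.F n := by
    rw [ODD.F_eq]
    exact (ODD.positivity_q n).2.2.2.2
  have h6 : ((ODD.Npos n : ℚ) - ODD.Nneg n) / ODD.Nall n = ODD.rho n := by
    rw [h1, h2, h3]
    field_simp
    ring
  have h7 : ((ODD.Npos n : ℝ) - ODD.Nneg n) / ODD.Nall n = ((ODD.rhoq n : ℚ) : ℝ) := by
    rw [← ODD.rho_eq, ← h6]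
    push_cast
    rfl
  rw [h7]

end Pool.Agent.Results.MP_d12cfa_co.SignBias
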