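import Pool.Agent.ODD.Count
import Pool.Agent.ODD.WE

/-!
# MP_d12cfa_co: odd order OSASMs counted with the sign of the nonzero diagonal entry

`IsOSASM n A`: `A` is an off-diagonally symmetric alternating sign matrix of order `2 n + 1`.
`Npos n`, `Nneg n`: number of them whose nonzero diagonal entry is `1`, is `-1`; `Nall n`: number
of all of them; `F n`: the product formula of the problem; `rho n`: an explicit hypergeometric sum
(definitions in `Pool/Agent/ODD/Stmt.lean`).

Proof: six-vertex model on a triangle at the cube root of unity; for boundary weights `e, f` of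
the two signs the reflection equation needs `f^2 = e^2`, so BOTH values `f = e` and `f = -e`
are integrable. The partition function as a polynomial in one spectral parameter (the others
equal to 1) is determined by a functional equation of period three and by its zero of high order;
all constants are hypergeometric sums evaluated by WZ certificates.
-/

set_option autoImplicit false

namespace Pool.Agent.Results.MP_d12cfa_co.SignedOSASM

theorem result (n : ℕ) :
    (ODD.Npos n : ℚ) = ODD.F n * (1 + ODD.rho n) / 2 ∧
    (ODD.Nneg n : ℚ) = ODD.F n * (1 - ODD.rho n) / 2 ∧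
    (ODD.Nall n : ℚ) = ODD.F n ∧ ODD.Nneg n < ODD.Npos n := by
  obtain ⟨h1, h2, h3⟩ := ODD.counts n
  refine ⟨h1, h2, h3, ?_⟩
  have h4 : 0 < ODD.rho n := ODD.rho_pos n
  have h5 : 0 < ODD.F n := by
    rw [ODD.F_eq]
    exact (ODD.positivity_q n).2.2.2.2
  have h6 : (ODD.Nneg n : ℚ) < (ODD.Npos n : ℚ) := by
    rw [h1, h2]
    nlinarith [mul_pos h5 h4]
  exact_mod_cast h6

end Pool.Agent.Results.MP_d12cfa_co.SignedOSASM
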